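import Mathlib
import Pool.Agent.Lib.MP_a267a3_lc.Final

/-!
# `PΓL₂(F)` is maximal-closed when the transcendence degree of `F` is at least two

For every algebraically closed field `F` containing two elements that are algebraically
independent over the prime field (no restriction on the cardinality or the characteristic), the
group of permutations of the projective line induced by semilinear bijections of `F²` is a
maximal-closed subgroup of the symmetric group of the line.
-/

set_option autoImplicit false

namespace Pool.Agent.Results.MP_a267a3_lc.MaximalTrdegTwo

/-- Let `F` be algebraically closed of transcendence degree at least `2` over its prime field.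
The set `G` of permutations of the projective line induced by semilinear bijections of `F²` is
closed in `Sym(P¹)`, it is not everything, and every closed subgroup containing it equals it or
is everything. -/
theorem result (F : Type*) [Field F] [IsAlgClosed F]
    (htr : ∃ x : Fin 2 → F, AlgebraicIndependent (⊥ : Subfield F) x)
    (G : Set (Equiv.Perm (Projectivization F (Fin 2 → F))))
    (hG : ∀ σ : Equiv.Perm (Projectivization F (Fin 2 → F)),
        σ ∈ G ↔ ∃ (φ : F ≃+* F)
          (f : (Fin 2 → F) →ₛₗ[φ.toRingHom] (Fin 2 → F))
          (hf : Function.Injective f),
          ⇑σ = Projectivization.map f hf) :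
    (∀ σ : Equiv.Perm (Projectivization F (Fin 2 → F)),
        (∀ A : Finset (Projectivization F (Fin 2 → F)),
          ∃ g ∈ G, ∀ x ∈ A, g x = σ x) → σ ∈ G) ∧
      G ≠ Set.univ ∧
      ∀ H : Subgroup (Equiv.Perm (Projectivization F (Fin 2 → F))),
        (∀ σ : Equiv.Perm (Projectivization F (Fin 2 → F)),
          (∀ A : Finset (Projectivization F (Fin 2 → F)),
            ∃ h ∈ H, ∀ x ∈ A, h x = σ x) → σ ∈ H) →
        G ⊆ (H : Set (Equiv.Perm (Projectivization F (Fin 2 → F)))) →
        (H : Set (Equiv.Perm (Projectivization F (Fin 2 → F)))) = G ∨ H = ⊤ :=
  Pool.Agent.MPa267.main_proj F htr G hG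

end Pool.Agent.Results.MP_a267a3_lc.MaximalTrdegTwo
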