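import Mathlib
import Pool.Agent.Lib.MP_a267a3_lc.D1.All

/-!
# Closed overgroups of `PΓL₂(F)` when `F` has transcendence degree one

Let `F` be an algebraically closed field of transcendence degree exactly one over its prime field,
`k` the algebraic closure of the prime field in `F`. If a closed subgroup `H` of `Sym(P¹(F))` lies
strictly between `PΓL₂(F)` and `Sym(P¹(F))`, then there is an odd number `n ≥ 5` such that `H` is
`n`-transitive and not `(n+1)`-transitive, and the translates `h(P¹(k))`, `h ∈ H`, form a Steiner
`n`-system: every `n` distinct points lie in exactly one of them.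
-/

set_option autoImplicit false

namespace Pool.Agent.Results.MP_a267a3_lc.OvergroupTrdegOne

/-- Let `F` be algebraically closed of transcendence degree exactly `1` over its prime field, `G` the
group of permutations of the projective line induced by semilinear bijections of `F²`, and `H` a
closed subgroup strictly between `G` and the symmetric group. Then for some odd `n ≥ 5` the group
`H` is `n`-transitive, not `(n+1)`-transitive, and the `H`-translates of the projective line over
the algebraic closure of the prime field form a Steiner `n`-system. -/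
theorem result (F : Type*) [Field F] [IsAlgClosed F]
    (h1 : ∃ x : F, Transcendental (⊥ : Subfield F) x)
    (h2 : ∀ x : Fin 2 → F, ¬ AlgebraicIndependent (⊥ : Subfield F) x)
    (G : Set (Equiv.Perm (Projectivization F (Fin 2 → F))))
    (hG : ∀ σ : Equiv.Perm (Projectivization F (Fin 2 → F)),
        σ ∈ G ↔ ∃ (φ : F ≃+* F)
          (f : (Fin 2 → F) →ₛₗ[φ.toRingHom] (Fin 2 → F))
          (hf : Function.Injective f),
          ⇑σ = Projectivization.map f hf)
    (H : Subgroup (Equiv.Perm (Projectivization F (Fin 2 → F))))
    (hH : ∀ σ : Equiv.Perm (Projectivization F (Fin 2 → F)),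
        (∀ A : Finset (Projectivization F (Fin 2 → F)),
          ∃ h ∈ H, ∀ x ∈ A, h x = σ x) → σ ∈ H)
    (hGH : G ⊆ (H : Set (Equiv.Perm (Projectivization F (Fin 2 → F)))))
    (hne : (H : Set (Equiv.Perm (Projectivization F (Fin 2 → F)))) ≠ G) (hne' : H ≠ ⊤) :
    ∃ n : ℕ, Odd n ∧ 5 ≤ n ∧
      (∀ (A : Finset (Projectivization F (Fin 2 → F)))
        (f : Projectivization F (Fin 2 → F) → Projectivization F (Fin 2 → F)),
        A.card = n → Set.InjOn f (A : Set (Projectivization F (Fin 2 → F))) →
          ∃ h ∈ H, ∀ a ∈ A, h a = f a) ∧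
      (∃ (A : Finset (Projectivization F (Fin 2 → F)))
        (f : Projectivization F (Fin 2 → F) → Projectivization F (Fin 2 → F)),
        A.card = n + 1 ∧ Set.InjOn f (A : Set (Projectivization F (Fin 2 → F))) ∧
          ∀ h ∈ H, ∃ a ∈ A, h a ≠ f a) ∧
      ∀ A : Finset (Projectivization F (Fin 2 → F)), A.card = n →
        ∃! P : Set (Projectivization F (Fin 2 → F)),
          (∃ h ∈ H, P = h '' {x | ∃ (v : Fin 2 → F) (hv : v ≠ 0),
            (∀ i, IsAlgebraic (⊥ : Subfield F) (v i)) ∧ x = Projectivization.mk F v hv}) ∧
          (A : Set (Projectivization F (Fin 2 → F))) ⊆ P :=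
  Pool.Agent.MPa267.D1.proj_main Pool.Agent.MPa267.D1.exc_all F h1 h2 G hG H hH hGH hne hne'

end Pool.Agent.Results.MP_a267a3_lc.OvergroupTrdegOne
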